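import Pool.Agent.Q155.APN.Transport

set_option autoImplicit false

namespace Pool.Agent.Results.MP_abc6c1_co.InverseFails

open Q155.APN

/-- Almost perfect nonlinear: for `a ≠ 0` the equation `f (x + a) + f x = b` has at most two
solutions. -/
def IsAPN {F : Type*} [Field F] (f : F → F) : Prop :=
  ∀ a : F, a ≠ 0 → ∀ b : F, {x : F | f (x + a) + f x = b}.ncard ≤ 2

/-- `R` is a relative difference set in `(F, +)` relative to `N`: the differences of distinct
elements of `R` represent every element outside `N` exactly `lam` times and no nonzero element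
of `N`. -/
def IsRelDiffSet {F : Type*} [Field F] (R : Set F) (N : AddSubgroup F) (lam : ℕ) : Prop :=
  (∀ g : F, g ∉ N → {q : F × F | q.1 ∈ R ∧ q.2 ∈ R ∧ q.1 ≠ q.2 ∧ q.1 - q.2 = g}.ncard = lam) ∧
  (∀ g ∈ N, g ≠ 0 → ∀ r ∈ R, ∀ r' ∈ R, r - r' ≠ g)

/-- The image set of `f` is a nontrivial relative difference set relative to some subgroup. -/
def GivesRDS {F : Type*} [Field F] (f : F → F) : Prop :=
  ∃ (N : AddSubgroup F) (lam : ℕ), IsRelDiffSet (Set.range f) N lam ∧
    2 ≤ (Set.range f).ncard ∧ (Set.range f).ncard + 2 ≤ Nat.card F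

/-- Maps of the form `x ↦ L x + c` with `L` additive (affine over `F_2` in characteristic two). -/
def IsAffine {F : Type*} [Field F] (A : F → F) : Prop :=
  ∃ (L : F →+ F) (c : F), ∀ x, A x = L x + c

/-- EA-equivalence: `g = A ∘ f ∘ B + C` with affine permutations `A`, `B` and `C` affine. -/
def EAEquiv {F : Type*} [Field F] (f g : F → F) : Prop :=
  ∃ A B C : F → F, IsAffine A ∧ Function.Bijective A ∧ IsAffine B ∧ Function.Bijective B ∧
    IsAffine C ∧ ∀ x, g x = A (f (B x)) + C x

/-- CCZ-equivalence: an affine permutation of `F × F` maps the graph of `f` onto the graph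
of `g`. -/
def CCZEquiv {F : Type*} [Field F] (f g : F → F) : Prop :=
  ∃ (φ : (F × F) ≃+ (F × F)) (v : F × F),
    (fun z => φ z + v) '' {z | z.2 = f z.1} = {z | z.2 = g z.1}

theorem not_rds {F : Type*} [Field F] (hF : Nat.card F = 32) (g : F → F)
    (hg : CCZEquiv (fun x : F => x⁻¹) g) : ¬ GivesRDS g := by
  rintro ⟨N, lam, ⟨hN1, hN2⟩, h2, h30⟩
  obtain ⟨φ, v, hφ⟩ := hg
  have hself := field_add_self hF
  have hgr : ∀ x : F, (φ (x, x⁻¹) + v).2 = g (φ (x, x⁻¹) + v).1 := by
    intro x
    have h1 : φ (x, x⁻¹) + v ∈ (fun z => φ z + v) '' {z : F × F | z.2 = z.1⁻¹} :=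
      ⟨(x, x⁻¹), rfl, rfl⟩
    rw [hφ] at h1
    exact h1
  have hsum : ∀ a x : F, (φ (x, x⁻¹) + v) + (φ (x + a, (x + a)⁻¹) + v) =
      φ (a, x⁻¹ + (x + a)⁻¹) := by
    intro a x
    have e : ((a, x⁻¹ + (x + a)⁻¹) : F × F) = (x, x⁻¹) + (x + a, (x + a)⁻¹) := by
      rw [Prod.mk_add_mk, ← add_assoc, hself, zero_add]
    have hv : v + v = 0 := Prod.ext (hself v.1) (hself v.2)
    rw [e, map_add, add_add_add_comm, hv, add_zero]
  have heq : ∀ p q : F, p + q = 0 → p = q := by
    intro p q h
    have h1 : p + q + q = q := by rw [h, zero_add]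
    rwa [add_assoc, hself, add_zero] at h1
  have hcover : ∀ c : F, c ≠ 0 → ∃ r ∈ Set.range g, ∃ r' ∈ Set.range g, r - r' = c := by
    intro c hc
    obtain ⟨a, x, ha, hax⟩ := field_key hF φ (by
      intro a ha x h0
      have h1 := congrArg Prod.fst (hsum a x)
      rw [h0, Prod.fst_add] at h1
      have h3 := heq _ _ h1
      have h4 : φ (x, x⁻¹) + v = φ (x + a, (x + a)⁻¹) + v := by
        apply Prod.ext h3
        rw [hgr x, hgr (x + a), h3]
      have h5 := φ.injective (add_right_cancel h4)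
      have h6 : x = x + a := congrArg Prod.fst h5
      exact ha (by simpa using h6)) c hc
    refine ⟨_, ⟨(φ (x, x⁻¹) + v).1, rfl⟩, _, ⟨(φ (x + a, (x + a)⁻¹) + v).1, rfl⟩, ?_⟩
    rw [← hgr x, ← hgr (x + a), ← hax, ← hsum a x]
    generalize φ (x, x⁻¹) + v = p
    generalize φ (x + a, (x + a)⁻¹) + v = q
    rw [Prod.snd_add, sub_eq_iff_eq_add, add_assoc, hself, add_zero]
  have hNbot : ∀ c ∈ N, c = 0 := by
    intro c hcN
    by_contra hc
    obtain ⟨r, hr, r', hr', h⟩ := hcover c hc
    exact hN2 c hcN hc r hr r' hr' h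
  rw [hF] at h30
  exact no_diff_set hF (Set.range g) lam (fun c hc => hN1 c (fun h => hc (hNbot c h))) h2 h30

theorem ccz_of_ea {F : Type*} [Field F] (hF : Nat.card F = 32) (f g : F → F)
    (h : EAEquiv f g) : CCZEquiv f g := by
  obtain ⟨A, B, C, ⟨LA, a, hA⟩, hAb, ⟨LB, b, hB⟩, hBb, ⟨LC, c, hC⟩, hg⟩ := h
  have hself := field_add_self hF
  have hLA : Function.Bijective LA := by
    have e : (LA : F → F) = (fun x => x - a) ∘ A := by
      funext x
      simp [hA]
    rw [e]
    exact (Equiv.subRight a).bijective.comp hAb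
  have hLB : Function.Bijective LB := by
    have e : (LB : F → F) = (fun x => x - b) ∘ B := by
      funext x
      simp [hB]
    rw [e]
    exact (Equiv.subRight b).bijective.comp hBb
  set eA : F ≃+ F := AddEquiv.ofBijective LA hLA with heA
  set eB : F ≃+ F := AddEquiv.ofBijective LB hLB with heB
  have heA' : ∀ x, eA x = LA x := fun x => rfl
  have heB' : ∀ x, eB x = LB x := fun x => rfl
  let φ : (F × F) ≃+ (F × F) :=
    { toFun := fun z => (eB.symm z.1, eA z.2 + LC (eB.symm z.1))
      invFun := fun z => (eB z.1, eA.symm (z.2 - LC z.1))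
      left_inv := by
        intro z
        simp
      right_inv := by
        intro z
        simp
      map_add' := by
        intro z w
        ext
        · simp
        · simp only [Prod.snd_add, Prod.fst_add, map_add]
          abel }
  have hφ : ∀ z, φ z = (eB.symm z.1, eA z.2 + LC (eB.symm z.1)) := fun z => rfl
  have key : ∀ x, φ (B x, f (B x)) + (- eB.symm b, a + c - LC (eB.symm b)) = (x, g x) := by
    intro x
    rw [hφ, hg, hA, hC]
    have e1 : eB.symm (B x) = x + eB.symm b := by
      rw [hB, ← heB', map_add, eB.symm_apply_apply]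
    ext
    · simp only [e1, Prod.mk_add_mk]
      abel
    · simp only [e1, Prod.mk_add_mk, map_add, heA']
      abel
  refine ⟨φ, (- eB.symm b, a + c - LC (eB.symm b)), ?_⟩
  ext z
  constructor
  · rintro ⟨w, hw, rfl⟩
    obtain ⟨x, hx⟩ := hBb.2 w.1
    have hw' : w = (B x, f (B x)) := Prod.ext hx.symm (by rw [hx]; exact hw)
    rw [hw']
    simp only [key]
    exact rfl
  · intro hz
    refine ⟨(B z.1, f (B z.1)), rfl, ?_⟩
    simp only [key]
    exact Prod.ext rfl hz.symm

/-- Over every field with `32` elements, the inverse map is almost perfect nonlinear, but no map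
that is CCZ-equivalent to it, and no map that is EA-equivalent to it, gives rise to a relative
difference set. -/
theorem result {F : Type*} [Field F] (hF : Nat.card F = 32) :
    IsAPN (fun x : F => x⁻¹) ∧
    (∀ g : F → F, CCZEquiv (fun x : F => x⁻¹) g → ¬ GivesRDS g) ∧
    (∀ g : F → F, EAEquiv (fun x : F => x⁻¹) g → ¬ GivesRDS g) :=
  ⟨fun a ha b => field_apn hF a ha b, not_rds hF, fun g hg => not_rds hF g (ccz_of_ea hF _ g hg)⟩

end Pool.Agent.Results.MP_abc6c1_co.InverseFails
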